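import Pool.Agent.Lib.lead.CXBase
import Pool.Agent.Lib.lead.CXRat

/-! Polynomial-time arithmetic on rational numbers. -/

set_option autoImplicit false

namespace Pool.Agent.Lib.helper29.CXQ
open Pool.Agent.Lib.CX

variable {α : Type} [Enc α]

def eu (p : ℕ × ℕ) : ℕ × ℕ := if p.2 = 0 then p else (p.2, p.1 % p.2)

theorem eu_gcd (n : ℕ) : ∀ a b : ℕ, b < 2 ^ n → eu^[2 * n + 1] (a, b) = (a.gcd b, 0) := by
  have z : ∀ k a : ℕ, eu^[k] (a, 0) = (a, 0) := fun k a => Function.iterate_fixed (by simp [eu]) k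
  induction n with
  | zero => intro a b h; obtain rfl : b = 0 := by omega
            simp [eu]
  | succ n ih =>
    intro a b h
    by_cases h1 : b = 0
    · subst h1; simp [z]
    have e1 : eu (a, b) = (b, a % b) := by simp [eu, h1]
    have g1 : a.gcd b = b.gcd (a % b) := by rw [Nat.gcd_comm a b, Nat.gcd_rec b a, Nat.gcd_comm]
    rw [show 2 * (n + 1) + 1 = 2 * n + 1 + 1 + 1 by ring, Function.iterate_succ_apply, e1, g1]
    by_cases h2 : a % b = 0
    · rw [h2, z]; simp
    have h3 := Nat.mod_lt a (Nat.pos_of_ne_zero h1)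
    generalize a % b = r at *
    have e2 : eu (b, r) = (r, b % r) := by simp [eu, h2]
    have h4 := Nat.mod_lt b (Nat.pos_of_ne_zero h2)
    have h5 : b % r + r ≤ b := by
      have := Nat.mod_add_div b r
      have := Nat.mul_le_mul_left r ((Nat.one_le_div_iff (Nat.pos_of_ne_zero h2)).2 h3.le)
      omega
    rw [Function.iterate_succ_apply, e2, ih _ _ (by omega), Nat.gcd_comm b r, Nat.gcd_rec r b,
      Nat.gcd_comm]

theorem eu_le (k a b : ℕ) : (eu^[k] (a, b)).1 ≤ a + b ∧ (eu^[k] (a, b)).2 ≤ a + b := by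
  induction k with
  | zero => simp
  | succ k ih =>
    rw [Function.iterate_succ_apply']
    generalize eu^[k] (a, b) = p at *
    have := Nat.mod_le p.1 p.2
    unfold eu
    split_ifs
    · exact ih
    · exact ⟨ih.2, by simp only; omega⟩

@[fun_prop] theorem pt_gcd {m n : α → ℕ} (hm : PT m) (hn : PT n) : PT fun a => (m a).gcd (n a) :=
  (PT.iterate (F := fun _ => eu) (i := fun a => (m a, n a)) (n := fun a => 2 * (n a).size + 1)
    (B := fun a => 2 * (size (m a) + size (n a)) + 1) (by unfold eu; fun_prop) (by fun_prop) (by fun_prop)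
    (by fun_prop) (by fun_prop) fun a k _ => by
      have h := eu_le k (m a) (n a)
      have h1 := (size_nat_mono h.1).trans (size_add_le _ _)
      have h2 := (size_nat_mono h.2).trans (size_add_le _ _)
      rw [← Prod.mk.eta (p := eu^[k] (m a, n a)), size_pair]
      omega).fst.congr fun a => by rw [eu_gcd _ _ _ (Nat.lt_size_self _)]

@[fun_prop] theorem pt_mkRat {x : α → ℤ} {n : α → ℕ} (hx : PT x) (hn : PT n) :
    PT fun a => mkRat (x a) (n a) := by
  refine PT.cast (g := fun a => (if n a = 0 then (0 : ℤ) else if x a < 0 then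
      -(((x a).natAbs / (n a).gcd (x a).natAbs : ℕ) : ℤ) else ((x a).natAbs / (n a).gcd (x a).natAbs : ℕ),
      if n a = 0 then 1 else n a / (n a).gcd (x a).natAbs))
    (PT.pair (PT.ite (by fun_prop) (PT.const _) (PT.ite (PT.idecide_lt hx (PT.const _))
      (PT.neg (PT.natCast (by fun_prop))) (PT.natCast (by fun_prop)))) (by fun_prop)) fun a => ?_
  refine congrArg (Enc.tr (α := ℤ × ℕ)) (Prod.ext ?_ (Rat.den_mkRat _ _))
  change (mkRat (x a) (n a)).num = _
  rw [Rat.num_mkRat]
  simp only
  split_ifs with h1 h2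
  · rfl
  · have := Int.neg_ediv_of_dvd (Int.natCast_dvd_natCast.2 (Nat.gcd_dvd_right (n a) (x a).natAbs))
    rw [Int.natCast_div, ← this, Int.natCast_natAbs, abs_of_neg h2, neg_neg]
  · rw [Int.natCast_div, Int.natCast_natAbs, abs_of_nonneg (not_lt.1 h2)]

variable {p q : α → ℚ}

theorem pt_numden (h : PT q) : PT fun a => ((q a).num, (q a).den) := h.cast fun _ => rfl
@[fun_prop] theorem pt_num (h : PT q) : PT fun a => (q a).num := (pt_numden h).fst
@[fun_prop] theorem pt_den (h : PT q) : PT fun a => (q a).den := (pt_numden h).snd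

@[fun_prop] theorem pt_add (hp : PT p) (hq : PT q) : PT fun a => p a + q a :=
  (pt_mkRat (((pt_num hp).imul (pt_den hq).natCast).iadd ((pt_num hq).imul (pt_den hp).natCast))
    ((pt_den hp).mul (pt_den hq))).congr fun _ => Rat.add_def' _ _
@[fun_prop] theorem pt_sub (hp : PT p) (hq : PT q) : PT fun a => p a - q a :=
  (pt_mkRat (((pt_num hp).imul (pt_den hq).natCast).isub ((pt_num hq).imul (pt_den hp).natCast))
    ((pt_den hp).mul (pt_den hq))).congr fun _ => Rat.sub_def' _ _
@[fun_prop] theorem pt_mul (hp : PT p) (hq : PT q) : PT fun a => p a * q a :=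
  (pt_mkRat ((pt_num hp).imul (pt_num hq)) ((pt_den hp).mul (pt_den hq))).congr fun _ =>
    Rat.mul_def' _ _
@[fun_prop] theorem pt_neg (hp : PT p) : PT fun a => -p a :=
  (pt_sub (PT.const 0) hp).congr fun _ => (zero_sub _).symm
@[fun_prop] theorem pt_inv (hq : PT q) : PT fun a => (q a)⁻¹ :=
  (pt_mkRat ((pt_num hq).imul (pt_den hq).natCast) ((pt_num hq).natAbs.mul (pt_num hq).natAbs)).congr
    fun a => by
      rw [Rat.mkRat_eq_div, Rat.inv_def, Rat.divInt_eq_div]
      by_cases h : (q a).num = 0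
      · simp [h]
      · have : ((q a).num : ℚ) ≠ 0 := by exact_mod_cast h
        push_cast
        rw [Nat.cast_natAbs, Int.cast_abs, abs_mul_abs_self]
        field_simp
@[fun_prop] theorem pt_div (hp : PT p) (hq : PT q) : PT fun a => p a / q a :=
  (pt_mul hp (pt_inv hq)).congr fun _ => div_eq_mul_inv _ _
@[fun_prop] theorem pt_le {k : ∀ a, Decidable (p a ≤ q a)} (hp : PT p) (hq : PT q) :
    PT fun a => @decide (p a ≤ q a) (k a) :=
  (PT.idecide_le (k := fun _ => inferInstance) ((pt_num hp).imul (pt_den hq).natCast)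
    ((pt_num hq).imul (pt_den hp).natCast)).congr fun a => by simp [Rat.le_iff]
@[fun_prop] theorem pt_lt {k : ∀ a, Decidable (p a < q a)} (hp : PT p) (hq : PT q) :
    PT fun a => @decide (p a < q a) (k a) :=
  (PT.idecide_lt (k := fun _ => inferInstance) ((pt_num hp).imul (pt_den hq).natCast)
    ((pt_num hq).imul (pt_den hp).natCast)).congr fun a => by simp [Rat.lt_iff]
@[fun_prop] theorem pt_min (hp : PT p) (hq : PT q) : PT fun a => min (p a) (q a) :=
  (PT.ite (pt_le (k := fun _ => inferInstance) hp hq) hp hq).congr fun _ => min_def _ _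
@[fun_prop] theorem pt_max (hp : PT p) (hq : PT q) : PT fun a => max (p a) (q a) :=
  (PT.ite (pt_le (k := fun _ => inferInstance) hp hq) hq hp).congr fun _ => max_def _ _
@[fun_prop] theorem pt_intCast {x : α → ℤ} (hx : PT x) : PT fun a => (x a : ℚ) :=
  (pt_mkRat hx (PT.const 1)).congr fun _ => by simp [Rat.mkRat_eq_div]
@[fun_prop] theorem pt_natCast {x : α → ℕ} (hx : PT x) : PT fun a => (x a : ℚ) :=
  (pt_intCast hx.natCast).congr fun _ => by simp

end Pool.Agent.Lib.helper29.CXQ
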