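import Mathlib

namespace Pool.Agent.Lib.helper29.Doeblin

open Matrix Filter Topology Finset

variable {S : Type} [Fintype S] [DecidableEq S]

theorem contract (Q : Matrix S S ℝ) (y : S) (ε : ℝ) (h0 : ∀ a b, 0 ≤ Q a b)
    (h1 : ∀ a, ∑ b, Q a b = 1) (hy : ∀ a, ε ≤ Q a y) (v : S → ℝ) (hv : ∑ a, v a = 0) :
    ∑ b, |(v ᵥ* Q) b| ≤ (1 - ε) * ∑ a, |v a| := by
  have e : ∀ b, (v ᵥ* Q) b = ∑ a, v a * (Q a b - if b = y then ε else 0) := fun b => by
    simp only [vecMul, dotProduct, mul_sub, sum_sub_distrib, ← sum_mul, hv, zero_mul, sub_zero]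
  have hp : ∀ a b, 0 ≤ Q a b - if b = y then ε else 0 := fun a b => by
    split_ifs with h
    · rw [h]; linarith [hy a]
    · linarith [h0 a b]
  calc ∑ b, |(v ᵥ* Q) b| ≤ ∑ b, ∑ a, |v a| * (Q a b - if b = y then ε else 0) :=
        sum_le_sum fun b _ => by
          rw [e]
          refine (abs_sum_le_sum_abs _ _).trans (le_of_eq (sum_congr rfl fun a _ => ?_))
          rw [abs_mul, abs_of_nonneg (hp a b)]
    _ = (1 - ε) * ∑ a, |v a| := by
      rw [sum_comm, mul_sum]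
      refine sum_congr rfl fun a _ => ?_
      rw [← mul_sum, sum_sub_distrib, h1]
      simp [mul_comm]

theorem pow_stoch (P : Matrix S S ℝ) (h0 : ∀ a b, 0 ≤ P a b) (h1 : ∀ a, ∑ b, P a b = 1) (n : ℕ) :
    (∀ a b, 0 ≤ (P ^ n) a b) ∧ ∀ a, ∑ b, (P ^ n) a b = 1 := by
  induction n with
  | zero =>
    refine ⟨fun a b => ?_, fun a => by simp [one_apply]⟩
    rw [pow_zero, one_apply]; split_ifs <;> norm_num
  | succ n ih =>
    refine ⟨fun a b => ?_, fun a => ?_⟩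
    · rw [pow_succ, mul_apply]
      exact sum_nonneg fun c _ => mul_nonneg (ih.1 a c) (h0 c b)
    · simp only [pow_succ, mul_apply]
      rw [sum_comm]
      simp only [← mul_sum, h1, mul_one, ih.2]

theorem sum_vecMul (Q : Matrix S S ℝ) (h1 : ∀ a, ∑ b, Q a b = 1) (v : S → ℝ) :
    ∑ b, (v ᵥ* Q) b = ∑ a, v a := by
  simp only [vecMul, dotProduct]
  rw [sum_comm]
  simp only [← mul_sum, h1, mul_one]

/-- Doeblin: convergence to a stationary vector -/
theorem tendsto_stat (P : Matrix S S ℝ) (h0 : ∀ a b, 0 ≤ P a b) (h1 : ∀ a, ∑ b, P a b = 1)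
    (k : ℕ) (hk : 0 < k) (y : S) (ε : ℝ) (hε : 0 < ε) (hy : ∀ a, ε ≤ (P ^ k) a y) (π ν : S → ℝ)
    (hπ : π ᵥ* P = π) (hs : ∑ a, ν a = ∑ a, π a) :
    Tendsto (fun n => ν ᵥ* P ^ n) atTop (𝓝 π) := by
  have hπn : ∀ n, π ᵥ* P ^ n = π := fun n => by
    induction n with
    | zero => simp
    | succ n ih => rw [pow_succ, ← vecMul_vecMul, ih, hπ]
  have hv : ∑ a, (ν - π) a = 0 := by simp [sum_sub_distrib, hs]
  have hz : ∀ n, ∑ a, ((ν - π) ᵥ* P ^ n) a = 0 := fun n => by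
    rw [sum_vecMul _ (pow_stoch P h0 h1 n).2, hv]
  have he1 : ε ≤ 1 := by
    rw [← (pow_stoch P h0 h1 k).2 y]
    exact (hy y).trans (single_le_sum (fun b _ => (pow_stoch P h0 h1 k).1 y b) (mem_univ y))
  have hq : ∀ q, ∑ b, |((ν - π) ᵥ* P ^ (k * q)) b| ≤ (1 - ε) ^ q * ∑ a, |(ν - π) a| := fun q => by
    induction q with
    | zero => simp
    | succ q ih =>
      rw [Nat.mul_succ, pow_add, ← vecMul_vecMul, pow_succ', mul_assoc]
      exact (contract _ y ε (pow_stoch P h0 h1 k).1 (pow_stoch P h0 h1 k).2 hy _ (hz _)).trans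
        (mul_le_mul_of_nonneg_left ih (by linarith))
  have hn : ∀ n, ∑ b, |((ν - π) ᵥ* P ^ n) b| ≤ (1 - ε) ^ (n / k) * ∑ a, |(ν - π) a| := fun n => by
    have h := contract (P ^ (n % k)) y 0 (pow_stoch P h0 h1 _).1 (pow_stoch P h0 h1 _).2
      (fun a => (pow_stoch P h0 h1 _).1 a y) _ (hz (k * (n / k)))
    rw [vecMul_vecMul, ← pow_add, Nat.div_add_mod, sub_zero, one_mul] at h
    exact h.trans (hq _)
  have ht : Tendsto (fun n => (1 - ε) ^ (n / k) * ∑ a, |(ν - π) a|) atTop (𝓝 0) := by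
    have := ((tendsto_pow_atTop_nhds_zero_of_lt_one (by linarith : 0 ≤ 1 - ε)
      (by linarith)).comp (Nat.tendsto_div_const_atTop hk.ne')).mul_const (∑ a, |(ν - π) a|)
    simpa using this
  refine tendsto_pi_nhds.2 fun b => tendsto_sub_nhds_zero_iff.1 ?_
  refine squeeze_zero_norm (fun n => le_trans ?_ (hn n)) ht
  have := single_le_sum (f := fun b => |((ν - π) ᵥ* P ^ n) b|) (fun _ _ => abs_nonneg _)
    (mem_univ b)
  refine le_trans (le_of_eq ?_) this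
  rw [sub_vecMul, hπn]
  rfl

theorem unique_stat (P : Matrix S S ℝ) (π ν : S → ℝ) (hν : ν ᵥ* P = ν)
    (h : Tendsto (fun n => ν ᵥ* P ^ n) atTop (𝓝 π)) : ν = π := by
  have hn : ∀ n, ν ᵥ* P ^ n = ν := fun n => by
    induction n with
    | zero => simp
    | succ n ih => rw [pow_succ, ← vecMul_vecMul, ih, hν]
  simp only [hn] at h
  exact tendsto_nhds_unique tendsto_const_nhds h

theorem pow_succ_ge (P : Matrix S S ℝ) (h0 : ∀ a b, 0 ≤ P a b) (h1 : ∀ a, ∑ b, P a b = 1) (n : ℕ)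
    (a b c : S) : P a b * (P ^ n) b c ≤ (P ^ (n + 1)) a c := by
  rw [pow_succ', mul_apply]
  exact single_le_sum (f := fun b => P a b * (P ^ n) b c)
    (fun b _ => mul_nonneg (h0 a b) ((pow_stoch P h0 h1 n).1 b c)) (mem_univ b)

end Pool.Agent.Lib.helper29.Doeblin
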