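import Mathlib

namespace Pool.Agent.Lib.helper29.Perim

open Set MeasureTheory Metric Complex
open scoped RealInnerProductSpace

theorem exit {K : Set ℂ} (hK : IsCompact K) {y v : ℂ} (hy : y ∈ K) (hv : v ≠ 0) :
    ∃ t : ℝ, 0 ≤ t ∧ y + t • v ∈ frontier K := by
  obtain ⟨R, hR⟩ := hK.isBounded.exists_norm_le
  have hv' := norm_pos_iff.2 hv
  have hS : IsCompact {t : ℝ | 0 ≤ t ∧ y + t • v ∈ K} := by
    refine (isCompact_Icc (a := 0) (b := 2 * R / ‖v‖)).of_isClosed_subset
      (isClosed_Ici.inter (hK.isClosed.preimage (by fun_prop))) fun t ht => ⟨ht.1, ?_⟩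
    rw [le_div_iff₀ hv']
    have := norm_sub_le (y + t • v) y
    rw [add_sub_cancel_left, norm_smul, Real.norm_of_nonneg ht.1] at this
    linarith [hR _ ht.2, hR _ hy]
  obtain ⟨t, ht, hm⟩ := hS.exists_isGreatest ⟨0, le_rfl, by simpa⟩
  refine ⟨t, ht.1, subset_closure ht.2, fun h => ?_⟩
  have c : Filter.Tendsto (fun t : ℝ => y + t • v) (nhds t) (nhds (y + t • v)) :=
    Continuous.tendsto (by fun_prop) _
  obtain ⟨s, h1, h2⟩ := ((c.eventually (mem_interior_iff_mem_nhds.1 h)).filter_mono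
    (nhdsWithin_le_nhds (s := Ioi t))).and self_mem_nhdsWithin |>.exists
  exact (hm ⟨ht.1.trans (le_of_lt h2), h1⟩).not_gt h2

theorem supp {A : Set ℂ} (hA : Convex ℝ A) (hi : (interior A).Nonempty) {y : ℂ}
    (hy : y ∉ interior A) : ∃ n : ℂ, n ≠ 0 ∧ ∀ w ∈ A, ⟪n, w⟫ ≤ ⟪n, y⟫ := by
  obtain ⟨f, f0, hf⟩ := geometric_hahn_banach_of_nonempty_interior_point hA hy hi
  exact ⟨(InnerProductSpace.toDual ℝ ℂ).symm f, by simpa, by simpa⟩

theorem weak {A B : Set ℂ} (hA : Convex ℝ A) (cA : IsClosed A) (hi : (interior A).Nonempty)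
    (hAB : A ⊆ B) (hB : IsCompact B) : μH[1] (frontier A) ≤ μH[1] (frontier B) := by
  have k : ∀ y : frontier A, ∃ x ∈ frontier B, ∀ w ∈ A, ⟪x - y, w - y⟫ ≤ 0 := fun y => by
    obtain ⟨n, n0, hn⟩ := supp hA hi y.2.2
    obtain ⟨t, t0, ht⟩ := exit hB (hAB (cA.frontier_subset y.2)) n0
    refine ⟨_, ht, fun w hw => ?_⟩
    rw [add_sub_cancel_left, real_inner_smul_left, inner_sub_right]
    exact mul_nonpos_of_nonneg_of_nonpos t0 (sub_nonpos.2 (hn w hw))
  choose g g1 g2 using k
  have a : AntilipschitzWith 1 g := AntilipschitzWith.of_le_mul_dist fun y z => by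
    have h1 := g2 y z (cA.frontier_subset z.2)
    have h2 := g2 z y (cA.frontier_subset y.2)
    have h3 := real_inner_le_norm (g y - g z) ((y : ℂ) - z)
    have h4 : ‖(y : ℂ) - z‖ ^ 2 ≤ ⟪g y - g z, (y : ℂ) - z⟫ := by
      rw [← real_inner_self_eq_norm_sq]
      simp only [inner_sub_left, inner_sub_right] at *
      linarith
    rw [Subtype.dist_eq, dist_eq_norm, dist_eq_norm, NNReal.coe_one, one_mul]
    by_contra h
    nlinarith [norm_nonneg (g y - g z)]
  have b := a.le_hausdorffMeasure_image zero_le_one univ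
  rw [← isometry_subtype_coe.hausdorffMeasure_image (.inl zero_le_one)] at b
  simp only [image_univ, Subtype.range_coe, ENNReal.coe_one, ENNReal.one_rpow, one_mul] at b
  exact b.trans (measure_mono (range_subset_iff.2 g1))

theorem fin {A : Set ℂ} (hA : Convex ℝ A) (cA : IsCompact A) (hi : (interior A).Nonempty) :
    μH[1] (frontier A) ≠ ⊤ := by
  obtain ⟨R, hR⟩ := cA.isBounded.subset_closedBall 0
  refine ne_top_of_le_ne_top ?_ (weak hA cA.isClosed hi (hR.trans (closedBall_subset_closedBall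
    (le_abs_self R))) (isCompact_closedBall _ _))
  rw [frontier_closedBall', ← image_circleMap_Ioc]
  refine ne_top_of_le_ne_top ?_ ((lipschitzWith_circleMap 0 R).hausdorffMeasure_image_le zero_le_one _)
  simp [ENNReal.mul_eq_top]

theorem pos {K : Set ℂ} (hK : IsCompact K) {m u : ℂ} (hm : m ∈ interior K) (hu : u ≠ 0) :
    μH[1] (frontier K ∩ {x | ⟪u, m⟫ ≤ ⟪u, x⟫}) ≠ 0 := fun h => by
  have c : Filter.Tendsto (fun t : ℝ => m + t • (I * u)) (nhds 0) (nhds m) :=
    Continuous.tendsto' (by fun_prop) _ _ (by simp)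
  obtain ⟨ε, e0, he⟩ := Metric.eventually_nhds_iff_ball.1
    (c.eventually (mem_interior_iff_mem_nhds.1 hm))
  let φ : ℂ →L[ℝ] ℝ := (‖u‖ ^ 2)⁻¹ • innerSL ℝ (I * u)
  have l := φ.lipschitz.hausdorffMeasure_image_le zero_le_one (frontier K ∩ {x | ⟪u, m⟫ ≤ ⟪u, x⟫})
  rw [h, mul_zero, hausdorffMeasure_real] at l
  refine (measure_ball_pos volume (φ m) e0).not_ge ((measure_mono fun s hs => ?_).trans l)
  obtain ⟨t, t0, ht⟩ := exit hK (he (s - φ m) (by simpa [dist_eq_norm] using hs)) hu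
  have o : ⟪u, I * u⟫ = 0 := by simp; ring
  refine ⟨_, ⟨ht, ?_⟩, ?_⟩
  · simp only [mem_ofPred_eq, inner_add_right, real_inner_smul_right, o]
    nlinarith [mul_nonneg t0 (real_inner_self_nonneg (x := u))]
  · have a : φ u = 0 := by simp only [φ, smul_apply, innerSL_apply_apply,
      real_inner_comm, o, smul_zero]
    have b : φ (I * u) = 1 := by
      simp only [φ, smul_apply, innerSL_apply_apply, real_inner_self_eq_norm_sq]
      simp [hu]
    simp only [map_add, map_smul, a, b]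
    simp

theorem rad (c : ℂ) (R r : NNReal) (hr : 0 < r) :
    LipschitzOnWith (R / r) (fun x => c + (R / ‖x - c‖ : ℝ) • (x - c)) {x | (r : ℝ) ≤ ‖x - c‖} := by
  refine LipschitzOnWith.of_dist_le_mul fun x hx y hy => ?_
  have hr : (0 : ℝ) < r := hr
  rw [dist_add_left, ← dist_sub_right x y c]
  simp only [mem_ofPred_eq] at hx hy
  generalize x - c = x at *
  generalize y - c = y at *
  have a := hr.trans_le hx
  have b := hr.trans_le hy
  rw [dist_eq_norm, dist_eq_norm, ← sq_le_sq₀ (by positivity) (by positivity), mul_pow,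
    norm_sub_sq_real, norm_sub_sq_real, norm_smul, norm_smul, real_inner_smul_left,
    real_inner_smul_right, Real.norm_of_nonneg (by positivity), Real.norm_of_nonneg (by positivity),
    div_mul_cancel₀ _ a.ne', div_mul_cancel₀ _ b.ne', NNReal.coe_div]
  have h := real_inner_le_norm x y
  have e : (R : ℝ) ^ 2 - 2 * (R / ‖x‖ * (R / ‖y‖ * ⟪x, y⟫)) + R ^ 2 =
      R ^ 2 / (‖x‖ * ‖y‖) * (2 * (‖x‖ * ‖y‖ - ⟪x, y⟫)) := by
    field_simp
    ring
  rw [e, div_pow]
  refine mul_le_mul (div_le_div_of_nonneg_left (by positivity) (by positivity) (by nlinarith))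
    (by nlinarith [sq_nonneg (‖x‖ - ‖y‖)]) (by linarith) (by positivity)

theorem strict {A B : Set ℂ} (hA : Convex ℝ A) (cA : IsClosed A) (hi : (interior A).Nonempty)
    (hAB : A ⊆ B) (hB : Convex ℝ B) (cB : IsCompact B) {p : ℂ} (pB : p ∈ B) (pA : p ∉ A) :
    μH[1] (frontier A) < μH[1] (frontier B) := by
  obtain ⟨c, R, hR, hc⟩ : ∃ (c : ℂ) (R : ℝ), R ∈ Ioo 0 ‖p - c‖ ∧ A ⊆ ball c R := by
    obtain ⟨f, u, f1, f2⟩ := geometric_hahn_banach_closed_point hA cA pA
    obtain ⟨n, hn⟩ : ∃ n : ℂ, ∀ x, f x = ⟪n, x⟫ :=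
      ⟨(InnerProductSpace.toDual ℝ ℂ).symm f, by simp⟩
    obtain ⟨D, hD⟩ := (cB.isBounded.subset hAB).subset_closedBall p
    obtain ⟨s, hs⟩ : ∃ s : ℝ, s * (f p - u) = D ^ 2 + 1 :=
      ⟨_, div_mul_cancel₀ _ (sub_pos.2 f2).ne'⟩
    have s0 : 0 < s := by by_contra h; nlinarith [sq_nonneg D]
    have : A ⊆ ball (p - s • n) ‖p - (p - s • n)‖ := fun a ha => by
      have h1 := hD ha
      have h2 := f1 a ha
      rw [mem_closedBall_iff_norm] at h1
      rw [mem_ball_iff_norm, sub_sub_cancel, show a - (p - s • n) = s • n + (a - p) by ring,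
        ← sq_lt_sq₀ (by positivity) (by positivity), norm_add_sq_real, real_inner_smul_left, ← hn,
        map_sub]
      nlinarith [norm_nonneg (a - p)]
    obtain ⟨a, ha⟩ := hi
    exact ⟨_, exists_pos_lt_subset_ball (pos_of_mem_ball (this (interior_subset ha))) cA this⟩
  have iB := hi.mono (interior_mono hAB)
  obtain ⟨m, m1, m2⟩ : ∃ m, R < ‖m - c‖ ∧ m ∈ interior B := by
    have : p ∈ closure (interior B) :=
      (hB.closure_interior_eq_closure_of_nonempty_interior iB).ge (subset_closure pB)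
    exact mem_closure_iff.1 this {m | R < ‖m - c‖} (isOpen_lt continuous_const (by fun_prop)) hR.2
  lift R to NNReal using hR.1.le
  obtain ⟨r, hr⟩ : ∃ r : NNReal, (r : ℝ) = ‖m - c‖ := ⟨‖m - c‖₊, rfl⟩
  have R0 : 0 < R := hR.1
  have Rr : R < r := by rw [← NNReal.coe_lt_coe, hr]; exact m1
  have cC := cB.inter_right (isClosed_closedBall (x := c) (ε := R))
  refine (weak hA cA hi (subset_inter hAB (hc.trans ball_subset_closedBall)) cC).trans_lt ?_
  let f : ℂ → ℂ := fun x => c + (R / ‖x - c‖ : ℝ) • (x - c)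
  let F := frontier B
  let U := fun r : NNReal => {x | (r : ℝ) ≤ ‖x - c‖}
  have mU : ∀ r, MeasurableSet (U r) := fun r =>
    (isClosed_le continuous_const (by fun_prop)).measurableSet
  have cov : frontier (B ∩ closedBall c R) ⊆ (F \ U R ∪ f '' ((F ∩ U R) \ U r)) ∪ f '' (F ∩ U r) := by
    intro y hy
    have y1 := cC.isClosed.frontier_subset hy
    rcases (mem_closedBall_iff_norm.1 y1.2).eq_or_lt with h | h
    · have R1 : (0 : ℝ) < R := R0
      obtain ⟨t, t0, ht⟩ := exit cB y1.1 (v := y - c) (norm_pos_iff.1 (h ▸ R1))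
      have e : y + t • (y - c) - c = (1 + t) • (y - c) := by module
      have e1 : ‖y + t • (y - c) - c‖ = (1 + t) * R := by
        rw [e, norm_smul, h, Real.norm_of_nonneg (by linarith)]
      have e2 : f (y + t • (y - c)) = y := by
        simp only [f, e1]
        rw [e, smul_smul, show (R : ℝ) / ((1 + t) * R) * (1 + t) = 1 by field_simp]
        simp
      by_cases k : y + t • (y - c) ∈ U r
      · exact .inr ⟨_, ⟨ht, k⟩, e2⟩
      · refine .inl (.inr ⟨_, ⟨⟨ht, ?_⟩, k⟩, e2⟩)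
        simp only [U, mem_ofPred_eq, e1]
        nlinarith
    · refine .inl (.inl ⟨?_, h.not_ge⟩)
      rcases frontier_inter_subset _ _ hy with k | k
      · exact k.1
      · exact absurd (mem_sphere_iff_norm.1 (frontier_closedBall_subset_sphere k.2)) h.ne
  have l1 := ((rad c R R R0).mono (s := (F ∩ U R) \ U r) fun _ h => h.1.2).hausdorffMeasure_image_le
    zero_le_one
  have l2 := ((rad c R r (R0.trans Rr)).mono (s := F ∩ U r) fun _ h => h.2).hausdorffMeasure_image_le
    zero_le_one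
  rw [div_self R0.ne'] at l1
  simp only [ENNReal.coe_one, ENNReal.rpow_one, one_mul] at l1 l2
  have fi := fin hB cB iB
  have p0 : μH[1] (F ∩ U r) ≠ 0 := fun h => by
    refine pos cB m2 (u := m - c) (norm_pos_iff.1 (hR.1.trans m1)) (measure_mono_null ?_ h)
    refine inter_subset_inter_right _ fun x hx => ?_
    have h1 := real_inner_le_norm (m - c) (x - c)
    have h2 := real_inner_self_eq_norm_sq (m - c)
    simp only [mem_ofPred_eq, U, hr] at hx ⊢
    rw [inner_sub_right] at h1 h2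
    by_contra k
    nlinarith [hR.1.trans m1]
  have e1 := measure_inter_add_sdiff (μ := μH[1]) F (mU R)
  have e2 := measure_inter_add_sdiff (μ := μH[1]) (F ∩ U R) (mU r)
  rw [show F ∩ U R ∩ U r = F ∩ U r from by
    rw [inter_assoc, inter_eq_right.2 (show U r ⊆ U R from
      fun x hx => (NNReal.coe_le_coe.2 Rr.le).trans hx)]]
    at e2
  refine ((measure_mono cov).trans ((measure_union_le _ _).trans (add_le_add
    ((measure_union_le _ _).trans (add_le_add le_rfl l1)) l2))).trans_lt ?_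
  change _ < μH[1] F
  rw [← e1, ← e2, add_comm (_ + _) (μH[1] (F \ U R)), add_comm (μH[1] (F ∩ U r)), ← add_assoc]
  refine ENNReal.add_lt_add_left (ENNReal.add_ne_top.2 ⟨ne_top_of_le_ne_top fi (measure_mono
    sdiff_subset), ne_top_of_le_ne_top fi (measure_mono (sdiff_subset.trans inter_subset_left))⟩) ?_
  conv_rhs => rw [← one_mul (μH[1] (F ∩ U r))]
  refine ENNReal.mul_lt_mul_left p0 (ne_top_of_le_ne_top fi (measure_mono inter_subset_left)) ?_
  exact_mod_cast (div_lt_one (R0.trans Rr)).2 Rr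

end Pool.Agent.Lib.helper29.Perim
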